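import Pool.Agent.helper51.VF.SpecA
import Pool.Agent.helper51.VF.Lib

/-!
# Project vf, row HSD
-/

set_option autoImplicit false

namespace Pool.Agent.VF

open Pool.Agent.PC Pool.Agent.QS

universe u

section ring

variable (k : Type u) [Field k] (L : Type u) [CommRing L] [Algebra k L]

/-- power series modulo `s ^ N` -/
abbrev HSD_Q (N : ℕ) : Type u := PowerSeries L ⧸ (Ideal.span {(PowerSeries.X : PowerSeries L) ^ N})

theorem HSD_mk_eq {N : ℕ} {P Q : PowerSeries L}
    (h : (Ideal.Quotient.mk (Ideal.span {(PowerSeries.X : PowerSeries L) ^ N})) P =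
      (Ideal.Quotient.mk (Ideal.span {(PowerSeries.X : PowerSeries L) ^ N})) Q) (j : ℕ) (hj : j < N) :
    PowerSeries.coeff j P = PowerSeries.coeff j Q := by
  rw [Ideal.Quotient.eq, Ideal.mem_span_singleton, PowerSeries.X_pow_dvd_iff] at h
  have h1 := h j hj
  rwa [map_sub, sub_eq_zero] at h1

theorem HSD_mk_eq' {N : ℕ} {P Q : PowerSeries L}
    (h : ∀ j < N, PowerSeries.coeff j P = PowerSeries.coeff j Q) :
    (Ideal.Quotient.mk (Ideal.span {(PowerSeries.X : PowerSeries L) ^ N})) P =
      (Ideal.Quotient.mk (Ideal.span {(PowerSeries.X : PowerSeries L) ^ N})) Q := by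
  rw [Ideal.Quotient.eq, Ideal.mem_span_singleton, PowerSeries.X_pow_dvd_iff]
  intro j hj
  rw [map_sub, sub_eq_zero]
  exact h j hj

theorem HSD_le (p : ℕ) : Ideal.span {(PowerSeries.X : PowerSeries L) ^ (p + 1)} ≤
    Ideal.span {(PowerSeries.X : PowerSeries L) ^ p} := by
  rw [Ideal.span_singleton_le_span_singleton]
  exact pow_dvd_pow _ (Nat.le_succ p)

theorem HSD_nil (p : ℕ) (hp : 1 ≤ p) :
    IsNilpotent (RingHom.ker (Ideal.Quotient.factorₐ k (HSD_le L p) :
      HSD_Q L (p + 1) →+* HSD_Q L p)) := by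
  refine ⟨2, (sq (RingHom.ker (Ideal.Quotient.factorₐ k (HSD_le L p) :
      HSD_Q L (p + 1) →+* HSD_Q L p))).trans ?_⟩
  rw [Ideal.zero_eq_bot, eq_bot_iff, Ideal.mul_le]
  intro x hx y hy
  obtain ⟨P, rfl⟩ := Ideal.Quotient.mk_surjective x
  obtain ⟨Q, rfl⟩ := Ideal.Quotient.mk_surjective y
  rw [RingHom.mem_ker] at hx hy
  have hx' : (Ideal.Quotient.mk (Ideal.span {(PowerSeries.X : PowerSeries L) ^ p})) P = 0 := hx
  have hy' : (Ideal.Quotient.mk (Ideal.span {(PowerSeries.X : PowerSeries L) ^ p})) Q = 0 := hy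
  rw [Ideal.Quotient.eq_zero_iff_mem, Ideal.mem_span_singleton] at hx' hy'
  rw [Ideal.mem_bot, ← map_mul, Ideal.Quotient.eq_zero_iff_mem, Ideal.mem_span_singleton]
  refine dvd_trans ?_ (mul_dvd_mul hx' hy')
  rw [← pow_add]
  exact pow_dvd_pow _ (by omega)

/-- the lift, as a choice of representatives -/
theorem HSD_lift (A : Type u) [CommRing A] [Algebra k A] [Algebra.FormallySmooth k A] (p : ℕ) (hp : 1 ≤ p)
    (f : A →ₐ[k] HSD_Q L p) : ∃ P : A → PowerSeries L,
      (∀ a, (Ideal.Quotient.mk (Ideal.span {(PowerSeries.X : PowerSeries L) ^ p})) (P a) = f a) ∧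
      (∀ a b j, j ≤ p → PowerSeries.coeff j (P (a + b)) = PowerSeries.coeff j (P a + P b)) ∧
      (∀ a b j, j ≤ p → PowerSeries.coeff j (P (a * b)) = PowerSeries.coeff j (P a * P b)) ∧
      (∀ a N j, j ≤ p → PowerSeries.coeff j (P (a ^ N)) = PowerSeries.coeff j (P a ^ N)) ∧
      (∀ c : k, ∀ j, j ≤ p → PowerSeries.coeff j (P (algebraMap k A c)) =
        PowerSeries.coeff j (algebraMap k (PowerSeries L) c)) := by
  have hs : Function.Surjective (Ideal.Quotient.factorₐ k (HSD_le L p)) :=
    Ideal.Quotient.factor_surjective (HSD_le L p)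
  set ψ := Algebra.FormallySmooth.liftOfSurjective f (Ideal.Quotient.factorₐ k (HSD_le L p)) hs
    (HSD_nil k L p hp) with hψ
  have h1 : ∀ a, Ideal.Quotient.factorₐ k (HSD_le L p) (ψ a) = f a := by
    intro a
    rw [hψ]
    exact Algebra.FormallySmooth.liftOfSurjective_apply _ _ _ _ _
  have h2 : ∀ a, ∃ P : PowerSeries L,
      (Ideal.Quotient.mk (Ideal.span {(PowerSeries.X : PowerSeries L) ^ (p + 1)})) P = ψ a :=
    fun a => Ideal.Quotient.mk_surjective _
  choose P hP using h2
  refine ⟨P, ?_, ?_, ?_, ?_, ?_⟩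
  · intro a
    rw [← h1 a, ← hP a]
    rfl
  · intro a b j hj
    refine HSD_mk_eq L ?_ j (Nat.lt_succ_of_le hj)
    rw [hP, map_add, map_add, hP, hP]
  · intro a b j hj
    refine HSD_mk_eq L ?_ j (Nat.lt_succ_of_le hj)
    rw [hP, map_mul, map_mul, hP, hP]
  · intro a N j hj
    refine HSD_mk_eq L ?_ j (Nat.lt_succ_of_le hj)
    rw [hP, map_pow, map_pow, hP]
  · intro c j hj
    refine HSD_mk_eq L ?_ j (Nat.lt_succ_of_le hj)
    rw [hP, AlgHom.commutes]
    rfl

theorem HSD_frob (p : ℕ) [hp : Fact p.Prime] [CharP L p] (P : PowerSeries L) :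
    PowerSeries.coeff p (P ^ p) = PowerSeries.coeff 1 P ^ p := by
  have : CharP (PowerSeries L) p := by
    refine charP_of_injective_ringHom (f := (PowerSeries.C : L →+* PowerSeries L)) ?_ p
    exact PowerSeries.C_injective
  have h1 := PowerSeries.eq_X_mul_shift_add_const P
  have hpp : 0 < p := hp.out.pos
  conv_lhs => rw [h1, add_pow_char, mul_pow, ← map_pow, map_add]
  have h2 : PowerSeries.coeff p (PowerSeries.C (PowerSeries.constantCoeff P ^ p)) = 0 := by
    rw [PowerSeries.coeff_C, if_neg hpp.ne']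
  rw [h2, add_zero]
  have h3 := PowerSeries.coeff_X_pow_mul ((PowerSeries.mk fun q => PowerSeries.coeff (q + 1) P) ^ p) p 0
  rw [Nat.zero_add] at h3
  rw [h3, PowerSeries.coeff_zero_eq_constantCoeff_apply, map_pow]
  rw [← PowerSeries.coeff_zero_eq_constantCoeff_apply, PowerSeries.coeff_mk]

end ring

section

variable {k A F K : Type u} [Field k] [CommRing A] [IsDomain A] [Algebra k A] [Field F] [Field K]
  [Algebra k F] [Algebra k K] [Algebra F K] [IsScalarTower k F K] [Algebra A K] [IsScalarTower k A K]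
  [IsFractionRing A K]

/-- the local ring at `m` as a subalgebra -/
def HSD_L (k : Type u) (K : Type u) [Field k] [Field K] [Algebra k A] [Algebra k K] [Algebra A K]
    [IsScalarTower k A K] [IsFractionRing A K] (m : Ideal A) [hm : m.IsPrime] : Subalgebra k K where
  carrier := {x | Loc m x}
  mul_mem' := LB_mul
  one_mem' := LB_one hm.ne_top
  add_mem' := LB_add
  zero_mem' := LB_zero hm.ne_top
  algebraMap_mem' := fun c => LB_const hm.ne_top c

theorem HSD_mem (m : Ideal A) [hm : m.IsPrime] {x : K} : x ∈ HSD_L k K m ↔ Loc m x := Iff.rfl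

theorem HSD_der_inv (δ : Derivation F K K) (n : ℕ) : δ ((n : K)⁻¹) = 0 := by
  by_cases h : (n : K) = 0
  · rw [h, inv_zero, map_zero]
  · have h3 : δ (n : K) = 0 := δ.map_natCast _
    have h4 := δ.leibniz (n : K) ((n : K)⁻¹)
    rw [mul_inv_cancel₀ h, Derivation.map_one_eq_zero, h3, smul_zero, add_zero, smul_eq_mul] at h4
    exact (mul_eq_zero.1 h4.symm).resolve_left h

theorem HSD_fac_ne (p : ℕ) [hp : Fact p.Prime] [CharP K p] {n : ℕ} (hn : n < p) :
    ((n.factorial : ℕ) : K) ≠ 0 := by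
  intro h
  rw [CharP.cast_eq_zero_iff K p] at h
  exact absurd ((hp.out.dvd_factorial).1 h) (by omega)

/-- the coefficients of the truncated exponential -/
theorem HSD_leib (p : ℕ) [hp : Fact p.Prime] [CharP K p] (δ : Derivation F K K) (x y : K) (j : ℕ) (hj : j < p) :
    ((j.factorial : ℕ) : K)⁻¹ * (⇑δ)^[j] (x * y) = ∑ q ∈ Finset.HasAntidiagonal.antidiagonal j,
      (((q.1.factorial : ℕ) : K)⁻¹ * (⇑δ)^[q.1] x) * (((q.2.factorial : ℕ) : K)⁻¹ * (⇑δ)^[q.2] y) := by
  rw [Finset.Nat.sum_antidiagonal_eq_sum_range_succ_mk, LB_iter_mul, Finset.mul_sum]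
  refine Finset.sum_congr rfl fun i hi => ?_
  have hi' : i ≤ j := by
    have := Finset.mem_range.1 hi
    omega
  have h2 := Nat.choose_mul_factorial_mul_factorial hi'
  have h3 : (j.choose i : K) * (i.factorial : K) * ((j - i).factorial : K) = (j.factorial : K) := by
    exact_mod_cast congrArg (Nat.cast (R := K)) h2
  have a1 := HSD_fac_ne (K := K) p (n := i) (by omega)
  have a2 := HSD_fac_ne (K := K) p (n := j - i) (by omega)
  have a3 := HSD_fac_ne (K := K) p hj
  simp only
  rw [← h3] at a3 ⊢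
  have a4 : (j.choose i : K) ≠ 0 := by
    intro h
    apply a3
    rw [h]
    ring
  field_simp

/-- the truncated exponential as a power series over the local ring -/
noncomputable def HSD_E (m : Ideal A) [hm : m.IsPrime] (δ : Derivation F K K)
    (hδ : ∀ a : A, Loc m (δ (algebraMap A K a))) (a : A) : PowerSeries (HSD_L k K m) :=
  PowerSeries.mk fun j => ⟨((j.factorial : ℕ) : K)⁻¹ * (⇑δ)^[j] (algebraMap A K a),
    LB_mul (LB_natInv (k := k) hm.ne_top _) (LB_der_iter hδ j (LB_of hm.ne_top a))⟩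

theorem HSD_iter_add (δ : Derivation F K K) (n : ℕ) (x y : K) :
    (⇑δ)^[n] (x + y) = (⇑δ)^[n] x + (⇑δ)^[n] y := by
  induction n with
  | zero => rfl
  | succ n ih =>
    rw [Function.iterate_succ_apply', Function.iterate_succ_apply', Function.iterate_succ_apply', ih, map_add]

theorem HSD_iter_const (δ : Derivation F K K) (n : ℕ) (c : k) :
    (⇑δ)^[n] (algebraMap k K c) = if n = 0 then algebraMap k K c else 0 := by
  induction n with
  | zero => simp
  | succ n ih =>
    rw [Function.iterate_succ_apply', ih, if_neg (Nat.succ_ne_zero n)]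
    split_ifs
    · rw [IsScalarTower.algebraMap_apply k F K, δ.map_algebraMap]
    · rw [map_zero]

/-- the truncated exponential as a homomorphism -/
theorem HSD_hom (p : ℕ) [hp : Fact p.Prime] [CharP K p] (m : Ideal A) [hm : m.IsPrime] (δ : Derivation F K K)
    (hδ : ∀ a : A, Loc m (δ (algebraMap A K a))) : ∃ f : A →ₐ[k] HSD_Q (HSD_L k K m) p,
      ∀ a, f a = (Ideal.Quotient.mk (Ideal.span {(PowerSeries.X : PowerSeries (HSD_L k K m)) ^ p}))
        (HSD_E (k := k) m δ hδ a) := by
  have hc : ∀ c : k, (Ideal.Quotient.mk (Ideal.span {(PowerSeries.X : PowerSeries (HSD_L k K m)) ^ p}))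
        (HSD_E (k := k) m δ hδ (algebraMap k A c)) =
        algebraMap k (HSD_Q (HSD_L k K m) p) c := by
    intro c
    have h1 : algebraMap k (HSD_Q (HSD_L k K m) p) c =
      (Ideal.Quotient.mk (Ideal.span {(PowerSeries.X : PowerSeries (HSD_L k K m)) ^ p}))
        (algebraMap k (PowerSeries (HSD_L k K m)) c) := rfl
    rw [h1]
    refine HSD_mk_eq' _ fun j hj => ?_
    rw [HSD_E, PowerSeries.coeff_mk]
    have h2 : algebraMap k (PowerSeries (HSD_L k K m)) c =
      PowerSeries.C (algebraMap k (HSD_L k K m) c) := PowerSeries.algebraMap_apply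
    rw [h2, PowerSeries.coeff_C]
    apply Subtype.ext
    simp only
    rw [← IsScalarTower.algebraMap_apply k A K, HSD_iter_const]
    split_ifs with h
    · subst h
      simp
    · simp
  let g : A → HSD_Q (HSD_L k K m) p := fun a =>
    (Ideal.Quotient.mk (Ideal.span {(PowerSeries.X : PowerSeries (HSD_L k K m)) ^ p}))
      (HSD_E (k := k) m δ hδ a)
  have g1 : g 1 = 1 := by
    have := hc 1
    rwa [map_one, map_one] at this
  have g0 : g 0 = 0 := by
    have := hc 0
    rwa [map_zero, map_zero] at this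
  have gm : ∀ a b, g (a * b) = g a * g b := by
    intro a b
    change (Ideal.Quotient.mk (Ideal.span {(PowerSeries.X : PowerSeries (HSD_L k K m)) ^ p})) _ =
      (Ideal.Quotient.mk (Ideal.span {(PowerSeries.X : PowerSeries (HSD_L k K m)) ^ p})) _ *
      (Ideal.Quotient.mk (Ideal.span {(PowerSeries.X : PowerSeries (HSD_L k K m)) ^ p})) _
    rw [← map_mul]
    refine HSD_mk_eq' _ fun j hj => ?_
    rw [PowerSeries.coeff_mul]
    apply Subtype.ext
    rw [HSD_E, PowerSeries.coeff_mk]
    simp only [HSD_E, PowerSeries.coeff_mk]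
    rw [map_mul, HSD_leib p δ _ _ j hj]
    push_cast
    rfl
  have ga : ∀ a b, g (a + b) = g a + g b := by
    intro a b
    change (Ideal.Quotient.mk (Ideal.span {(PowerSeries.X : PowerSeries (HSD_L k K m)) ^ p})) _ =
      (Ideal.Quotient.mk (Ideal.span {(PowerSeries.X : PowerSeries (HSD_L k K m)) ^ p})) _ +
      (Ideal.Quotient.mk (Ideal.span {(PowerSeries.X : PowerSeries (HSD_L k K m)) ^ p})) _
    rw [← map_add]
    refine HSD_mk_eq' _ fun j hj => ?_
    rw [map_add]
    apply Subtype.ext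
    simp only [HSD_E, PowerSeries.coeff_mk, map_add, HSD_iter_add, mul_add]
    rfl
  exact ⟨{ toFun := g
           map_one' := g1
           map_mul' := gm
           map_zero' := g0
           map_add' := ga
           commutes' := hc }, fun a => rfl⟩

/-- the coefficient of `s ^ p` of the lift -/
theorem HSD_tau [Algebra.FormallySmooth k A] (p : ℕ) [hp : Fact p.Prime] [CharP K p] (m : Ideal A)
    [hm : m.IsPrime] (δ : Derivation F K K) (hδ : ∀ a : A, Loc m (δ (algebraMap A K a))) :
    ∃ τ : A → K, (∀ a b, τ (a + b) = τ a + τ b) ∧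
      (∀ a b, τ (a * b) = algebraMap A K a * τ b + algebraMap A K b * τ a +
        ∑ i ∈ Finset.Ico 1 p, ((i.factorial * (p - i).factorial : ℕ) : K)⁻¹ *
          ((⇑δ)^[i] (algebraMap A K a) * (⇑δ)^[p - i] (algebraMap A K b))) ∧
      (∀ c : k, τ (algebraMap k A c) = 0) ∧ (∀ a, Loc m (τ a)) ∧
      ∀ a, τ (a ^ p) = δ (algebraMap A K a) ^ p := by
  have hp1 : 1 ≤ p := hp.out.one_lt.le
  obtain ⟨f, hf⟩ := HSD_hom (k := k) p m δ hδ
  obtain ⟨P, h1, h2, h3, h4, h5⟩ := HSD_lift k (HSD_L k K m) A p hp1 f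
  have hcoef : ∀ a j, j < p → ((PowerSeries.coeff j (P a) : HSD_L k K m) : K) =
      ((j.factorial : ℕ) : K)⁻¹ * (⇑δ)^[j] (algebraMap A K a) := by
    intro a j hj
    have h6 := HSD_mk_eq (HSD_L k K m) ((h1 a).trans (hf a)) j hj
    rw [h6, HSD_E, PowerSeries.coeff_mk]
  have hchar : CharP (HSD_L k K m) p := by
    refine (RingHom.charP_iff (HSD_L k K m).val.toRingHom ?_ p).2 inferInstance
    exact Subtype.val_injective
  refine ⟨fun a => ((PowerSeries.coeff p (P a) : HSD_L k K m) : K), ?_, ?_, ?_, ?_, ?_⟩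
  · intro a b
    simp only
    rw [h2 a b p le_rfl, map_add]
    rfl
  · intro a b
    simp only
    rw [h3 a b p le_rfl, PowerSeries.coeff_mul, Finset.Nat.sum_antidiagonal_eq_sum_range_succ_mk]
    obtain ⟨q, rfl⟩ : ∃ q, p = q + 1 := ⟨p - 1, by omega⟩
    rw [Finset.sum_range_succ, Finset.sum_range_succ']
    push_cast
    rw [hcoef a 0 (by omega), Nat.sub_self, hcoef b 0 (by omega)]
    have h6 : ∑ x ∈ Finset.range q, ((PowerSeries.coeff (x + 1) (P a) : HSD_L k K m) : K) *
        ((PowerSeries.coeff (q - x) (P b) : HSD_L k K m) : K) =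
        ∑ i ∈ Finset.Ico 1 (q + 1), ((i.factorial : K) * ((q + 1 - i).factorial : K))⁻¹ *
          ((⇑δ)^[i] (algebraMap A K a) * (⇑δ)^[q + 1 - i] (algebraMap A K b)) := by
      rw [Finset.sum_Ico_eq_sum_range, Nat.add_sub_cancel]
      refine Finset.sum_congr rfl fun x hx => ?_
      have hx' := Finset.mem_range.1 hx
      have e : q + 1 - (x + 1) = q - x := by omega
      rw [Nat.add_comm 1 x, hcoef a (x + 1) (by omega), hcoef b (q - x) (by omega), e]
      rw [mul_inv]
      ring
    rw [h6]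
    simp only [Nat.factorial_zero, Nat.cast_one, inv_one, one_mul, Function.iterate_zero, id]
    ring
  · intro c
    simp only
    rw [h5 c p le_rfl, PowerSeries.algebraMap_apply, PowerSeries.coeff_C, if_neg (by omega)]
    rfl
  · intro a
    exact (PowerSeries.coeff p (P a) : HSD_L k K m).2
  · intro a
    simp only
    rw [h4 a p p le_rfl, HSD_frob]
    have h6 := hcoef a 1 hp.out.one_lt
    push_cast
    rw [h6]
    simp

end

theorem HSD : HSD_stmt.{u} := by
  intro k A F K _ _ _ _ _ _ _ _ _ _ _ _ _ _ p hp _ n m hmm y D hD δ hδ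
  have hm : m.IsPrime := hmm.isPrime
  obtain ⟨τ, ta, tm, tc, tl, tp⟩ := HSD_tau (k := k) p m δ hδ
  obtain ⟨hD1, hD2⟩ := hD
  refine ⟨fun a => τ a - ∑ l, τ (y l) * D l (algebraMap A K a), ?_, ?_, ?_, ?_, ?_, ?_⟩
  · intro a b
    simp only
    rw [ta, map_add]
    simp only [map_add, mul_add, Finset.sum_add_distrib]
    ring
  · intro a b
    simp only
    rw [tm, map_mul]
    simp only [Derivation.leibniz, smul_eq_mul, mul_add, Finset.sum_add_distrib]
    have e1 : ∑ l, τ (y l) * (algebraMap A K a * D l (algebraMap A K b)) =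
        algebraMap A K a * ∑ l, τ (y l) * D l (algebraMap A K b) := by
      rw [Finset.mul_sum]
      exact Finset.sum_congr rfl fun l _ => by ring
    have e2 : ∑ l, τ (y l) * (algebraMap A K b * D l (algebraMap A K a)) =
        algebraMap A K b * ∑ l, τ (y l) * D l (algebraMap A K a) := by
      rw [Finset.mul_sum]
      exact Finset.sum_congr rfl fun l _ => by ring
    rw [e1, e2]
    ring
  · intro c
    simp only
    rw [tc, ← IsScalarTower.algebraMap_apply k A K]
    simp
  · intro a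
    refine LB_sub (tl a) (LB_sum _ _ fun l _ => LB_mul (tl _) ?_)
    exact hD2 l a
  · intro l
    simp only [hD1]
    simp
  · intro a
    simp only
    rw [tp, map_pow]
    have e1 : ∀ l, D l (algebraMap A K a ^ p) = 0 := by
      intro l
      rw [Derivation.leibniz_pow, ← Nat.cast_smul_eq_nsmul K, CharP.cast_eq_zero, zero_smul]
    simp [e1]

end Pool.Agent.VF
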