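import Pool.Agent.helper51.VF.SpecA
import Pool.Agent.helper51.VF.Lib

/-!
# Project vf, row MNT
-/

set_option autoImplicit false

namespace Pool.Agent.VF

open Pool.Agent.PC Pool.Agent.QS

universe u

section

variable {A F K : Type u} [CommRing A] [IsDomain A] [Field F] [Field K] [Algebra F K] [Algebra A K]
  [IsFractionRing A K]

theorem MNT_one (m : Ideal A) [hm : m.IsPrime] (δ : Derivation F K K)
    (hδ : ∀ a : A, Loc m (δ (algebraMap A K a))) (N : ℕ) :
    ∀ b ∈ m ^ N, LocI m (m ^ (N - 1)) (δ (algebraMap A K b)) := by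
  induction N with
  | zero =>
    intro b _
    have : m ^ (0 - 1) = ⊤ := by simp
    rw [this]
    exact LB_I_top (hδ b)
  | succ N ih =>
    rcases Nat.eq_zero_or_pos N with h0 | h0
    · subst h0
      intro b _
      have : m ^ (0 + 1 - 1) = ⊤ := by simp
      rw [this]
      exact LB_I_top (hδ b)
    · intro b hb
      rw [Nat.add_sub_cancel]
      rw [pow_succ] at hb
      refine Submodule.mul_induction_on hb ?_ ?_
      · intro x hx y hy
        rw [map_mul, δ.leibniz, smul_eq_mul, smul_eq_mul]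
        refine LB_I_add ?_ ?_
        · rw [mul_comm]
          exact LB_I_mul_left (hδ y) (LB_I_of hm.ne_top hx)
        · have h1 := LB_I_mul (LB_I_of (K := K) hm.ne_top hy) (ih x hx)
          have h2 : m * m ^ (N - 1) = m ^ N := by
            rw [← pow_succ', Nat.sub_add_cancel h0]
          rwa [h2] at h1
      · intro x y hx hy
        rw [map_add, map_add]
        exact LB_I_add hx hy

theorem MNT_loc (m : Ideal A) [hm : m.IsPrime] (δ : Derivation F K K)
    (hδ : ∀ a : A, Loc m (δ (algebraMap A K a))) (N : ℕ) (x : K) (hx : LocI m (m ^ N) x) :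
    LocI m (m ^ (N - 1)) (δ x) := by
  obtain ⟨b, s, hs, hb, rfl⟩ := hx
  have h1 := LB_ne (K := K) hs
  rw [LB_der_div δ _ _ h1, div_eq_mul_inv, mul_comm]
  refine LB_I_mul_left ?_ (LB_I_sub ?_ ?_)
  · exact ⟨1, s ^ 2, fun h => hs (hm.mem_of_pow_mem 2 h), by rw [map_one, map_pow, one_div]⟩
  · exact LB_I_mul_left (LB_of hm.ne_top s) (MNT_one m δ hδ N b hb)
  · rw [mul_comm]
    refine LB_I_mul_left (hδ s) (LB_I_mono (Ideal.pow_le_pow_right (Nat.sub_le N 1)) ?_)
    exact LB_I_of hm.ne_top hb

theorem MNT_iter (m : Ideal A) [hm : m.IsPrime] (δ : Derivation F K K)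
    (hδ : ∀ a : A, Loc m (δ (algebraMap A K a))) (N i : ℕ) (x : K) (hx : LocI m (m ^ N) x) :
    LocI m (m ^ (N - i)) ((⇑δ)^[i] x) := by
  induction i with
  | zero => exact hx
  | succ i ih =>
    rw [Function.iterate_succ_apply', ← Nat.sub_sub]
    exact MNT_loc m δ hδ (N - i) _ ih

end

theorem MNT : MNT_stmt.{u} := by
  intro k A F K _ _ _ _ _ _ _ _ _ _ _ _ _ p hp _ n m hmm y δ τ hδ hτ
  have hm : m.IsPrime := hmm.isPrime
  refine ⟨fun N i b hb => MNT_iter m δ hδ N i _ (LB_I_of hm.ne_top hb), ?_⟩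
  obtain ⟨hadd, hmul, -, hloc, -, -⟩ := hτ
  intro N
  induction N with
  | zero =>
    intro b _
    have : m ^ (0 - p) = ⊤ := by simp
    rw [this]
    exact LB_I_top (hloc b)
  | succ N ih =>
    intro b hb
    rcases Nat.lt_or_ge N p with h0 | h0
    · have : m ^ (N + 1 - p) = ⊤ := by
        rw [Nat.sub_eq_zero_of_le h0, pow_zero, Ideal.one_eq_top]
      rw [this]
      exact LB_I_top (hloc b)
    · have hp1 : 1 ≤ p := hp.out.one_lt.le
      rw [pow_succ'] at hb
      refine Submodule.mul_induction_on hb ?_ ?_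
      · intro x hx y hy
        rw [hmul]
        refine LB_I_add (LB_I_add ?_ ?_) ?_
        · have h1 := LB_I_mul (LB_I_of (K := K) hm.ne_top hx) (ih y hy)
          have h2 : m * m ^ (N - p) = m ^ (N + 1 - p) := by
            rw [← pow_succ', Nat.sub_add_comm h0]
          rwa [h2] at h1
        · rw [mul_comm]
          refine LB_I_mul_left (hloc x) (LB_I_mono (Ideal.pow_le_pow_right ?_) (LB_I_of hm.ne_top hy))
          omega
        · refine LB_I_sum _ _ fun i hi => ?_
          rw [Finset.mem_Ico] at hi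
          refine LB_I_mul_left (LB_natInv (k := k) hm.ne_top _) (LB_I_mul_left ?_ ?_)
          · exact LB_der_iter hδ i (LB_of hm.ne_top x)
          · refine LB_I_mono (Ideal.pow_le_pow_right ?_)
              (MNT_iter m δ hδ N (p - i) _ (LB_I_of hm.ne_top hy))
            omega
      · intro x y hx hy
        rw [hadd]
        exact LB_I_add hx hy

end Pool.Agent.VF
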