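import Pool.Agent.helper51.VF.SpecA

/-!
# Project vf, row SLC
-/

set_option autoImplicit false

namespace Pool.Agent.VF

open Pool.Agent.PC Pool.Agent.QS

universe u

section

variable {F K : Type u} [Field F] [Field K] [Algebra F K]

theorem SLC_iter_zero (δ : Derivation F K K) (n : ℕ) : (⇑δ)^[n] 0 = 0 := by
  induction n with
  | zero => rfl
  | succ n ih => rw [Function.iterate_succ_apply', ih, map_zero]

theorem SLC_fac_ne (p : ℕ) [hp : Fact p.Prime] [CharP K p] {n : ℕ} (hn : n < p) :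
    ((n.factorial : ℕ) : K) ≠ 0 := by
  intro h
  rw [CharP.cast_eq_zero_iff K p] at h
  exact absurd ((hp.out.dvd_factorial).1 h) (by omega)

theorem SLC_nat_ne (p : ℕ) [Fact p.Prime] [CharP K p] {n : ℕ} (hn : n + 1 < p) :
    ((n + 1 : ℕ) : K) ≠ 0 := by
  intro h
  rw [CharP.cast_eq_zero_iff K p] at h
  exact absurd (Nat.le_of_dvd (by omega) h) (by omega)

theorem SLC_zero (p : ℕ) [hp : Fact p.Prime] (δ : Derivation F K K) (u g : K) (hg : Pcl p δ g)
    (hu : δ u = 1) (x : K) : (⇑δ)^[p] x = 0 := by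
  have h2 : 2 ≤ p := hp.out.two_le
  have h1 : (⇑δ)^[p] u = 0 := by
    obtain ⟨q, rfl⟩ : ∃ q, p = q + 1 + 1 := ⟨p - 2, by omega⟩
    rw [Function.iterate_succ_apply, hu, Function.iterate_succ_apply, Derivation.map_one_eq_zero,
      SLC_iter_zero]
  have h3 := hg u
  rw [h1, hu, mul_one] at h3
  rw [hg x, ← h3, zero_mul]

theorem SLC_tel (p : ℕ) [hp : Fact p.Prime] [CharP K p] (δ : Derivation F K K) (u x : K)
    (hu : δ u = 1) (N : ℕ) (hN : N < p) :
    δ (∑ l ∈ Finset.range (N + 1), ((l.factorial : ℕ) : K)⁻¹ * (-u) ^ l * (⇑δ)^[l] x) =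
      ((N.factorial : ℕ) : K)⁻¹ * (-u) ^ N * (⇑δ)^[N + 1] x := by
  induction N with
  | zero => simp
  | succ N ih =>
    rw [Finset.sum_range_succ, map_add, ih (by omega)]
    have h1 := SLC_nat_ne (K := K) p hN
    have h2 := SLC_fac_ne (K := K) p (n := N) (by omega)
    have h0 : δ (((N + 1).factorial : ℕ) : K)⁻¹ = 0 := by
      have h3 : δ (((N + 1).factorial : ℕ) : K) = 0 := δ.map_natCast _
      have h4 := δ.leibniz (((N + 1).factorial : ℕ) : K) ((((N + 1).factorial : ℕ) : K)⁻¹)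
      rw [mul_inv_cancel₀ (SLC_fac_ne (K := K) p hN), Derivation.map_one_eq_zero, h3, smul_zero, add_zero,
        smul_eq_mul] at h4
      exact (mul_eq_zero.1 h4.symm).resolve_left (SLC_fac_ne (K := K) p hN)
    rw [δ.leibniz, δ.leibniz, h0, δ.leibniz_pow, map_neg, hu, ← Function.iterate_succ_apply' (⇑δ)]
    simp only [smul_eq_mul, mul_zero, add_zero, nsmul_eq_mul, Nat.add_sub_cancel]
    rw [Nat.factorial_succ, Nat.cast_mul, mul_inv]
    have h5 : (((N + 1 : ℕ) : K))⁻¹ * ((N + 1 : ℕ) : K) = 1 := inv_mul_cancel₀ h1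
    linear_combination (-((N.factorial : ℕ) : K)⁻¹ * (-u) ^ N * (⇑δ)^[N + 1] x) * h5

theorem SLC_bin (p : ℕ) [hp : Fact p.Prime] [CharP K p] (u : K) (m : ℕ) (hm : m < p) :
    ∑ k ∈ Finset.range (m + 1), ((k.factorial : ℕ) : K)⁻¹ * (((m - k).factorial : ℕ) : K)⁻¹ *
      u ^ k * (-u) ^ (m - k) = if m = 0 then 1 else 0 := by
  have h1 : ∀ k ∈ Finset.range (m + 1), ((k.factorial : ℕ) : K)⁻¹ * (((m - k).factorial : ℕ) : K)⁻¹ *
      u ^ k * (-u) ^ (m - k) = ((m.factorial : ℕ) : K)⁻¹ * (u ^ k * (-u) ^ (m - k) * (m.choose k : K)) := by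
    intro k hk
    have hk' : k ≤ m := by
      have := Finset.mem_range.1 hk
      omega
    have h2 := Nat.choose_mul_factorial_mul_factorial hk'
    have h3 : (m.choose k : K) * (k.factorial : K) * ((m - k).factorial : K) = (m.factorial : K) := by
      exact_mod_cast congrArg (Nat.cast (R := K)) h2
    have a1 := SLC_fac_ne (K := K) p (n := k) (by omega)
    have a2 := SLC_fac_ne (K := K) p (n := m - k) (by omega)
    have a3 := SLC_fac_ne (K := K) p hm
    rw [← h3] at a3 ⊢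
    have a4 : (m.choose k : K) ≠ 0 := by
      intro h
      apply a3
      rw [h]
      ring
    field_simp
  rw [Finset.sum_congr rfl h1, ← Finset.mul_sum, ← add_pow, add_neg_cancel]
  by_cases h : m = 0
  · subst h
    simp
  · rw [if_neg h, zero_pow h, mul_zero]

theorem SLC_sum (p : ℕ) [hp : Fact p.Prime] [CharP K p] (δ : Derivation F K K) (u a : K)
    (hz : ∀ x, (⇑δ)^[p] x = 0) :
    a = ∑ i ∈ Finset.range p, ((i.factorial : ℕ) : K)⁻¹ * u ^ i * EE p δ u ((⇑δ)^[i] a) := by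
  have hvan : ∀ n, p ≤ n → (⇑δ)^[n] a = 0 := by
    intro n hn
    obtain ⟨m, rfl⟩ : ∃ m, n = m + p := ⟨n - p, by omega⟩
    rw [Function.iterate_add_apply, hz, SLC_iter_zero]
  have hpp : 0 < p := hp.out.pos
  set c : ℕ → ℕ → K := fun i l => ((i.factorial : ℕ) : K)⁻¹ * ((l.factorial : ℕ) : K)⁻¹ * u ^ i * (-u) ^ l *
    (⇑δ)^[i + l] a with hc
  have h1 : ∀ i ∈ Finset.range p, ((i.factorial : ℕ) : K)⁻¹ * u ^ i * EE p δ u ((⇑δ)^[i] a) =
      ∑ l ∈ Finset.range (p - i), c i l := by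
    intro i hi
    have h2 : Finset.range (p - i) ⊆ Finset.range p := by
      intro x hx
      rw [Finset.mem_range] at hx ⊢
      omega
    rw [Finset.sum_subset h2 (f := c i)]
    · rw [EE, Finset.mul_sum]
      refine Finset.sum_congr rfl fun l _ => ?_
      rw [hc, ← Function.iterate_add_apply, Nat.add_comm l i]
      ring
    · intro l _ hl
      rw [Finset.mem_range] at hl
      rw [hc]
      simp only
      rw [hvan (i + l) (by omega), mul_zero]
  rw [Finset.sum_congr rfl h1, ← Finset.sum_range_diag_flip p c]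
  have h3 : ∀ m ∈ Finset.range p, ∑ k ∈ Finset.range (m + 1), c k (m - k) =
      (if m = 0 then 1 else 0) * (⇑δ)^[m] a := by
    intro m hm
    rw [← SLC_bin (K := K) p u m (Finset.mem_range.1 hm), Finset.sum_mul]
    refine Finset.sum_congr rfl fun k hk => ?_
    have hk' : k ≤ m := by
      have := Finset.mem_range.1 hk
      omega
    rw [hc]
    simp only
    rw [Nat.add_sub_cancel' hk']
  rw [Finset.sum_congr rfl h3, Finset.sum_eq_single 0]
  · simp
  · intro b _ hb
    rw [if_neg hb, zero_mul]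
  · intro h
    exact absurd (Finset.mem_range.2 hpp) h

end

theorem SLC : SLC_stmt.{u} := by
  intro F K _ _ _ p _ _ δ u g hg hu
  have hz := SLC_zero p δ u g hg hu
  refine ⟨hz, fun x => ?_, fun a => SLC_sum p δ u a hz⟩
  have hpp : 0 < p := (Fact.out : p.Prime).pos
  obtain ⟨N, rfl⟩ : ∃ N, p = N + 1 := ⟨p - 1, by omega⟩
  rw [EE, SLC_tel (N + 1) δ u x hu N (Nat.lt_succ_self N), hz, mul_zero]

end Pool.Agent.VF
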